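import Pool.Agent.H568.LB.Stm

/-!
# Project LB (helper568), task A5 (helper294): for five primes there are enough dropped pairs
-/

set_option autoImplicit false

open Finset Filter Topology Pool.Agent.N792 Pool.Agent.N791.U Pool.Agent.N792.RX5 Pool.Agent.H568 Pool.Agent.H568.LB

namespace Pool.Agent.H294.LB

/-- indicator -/
def ind (p : Prop) [Decidable p] : ℕ := if p then 1 else 0

theorem ind_le (p : Prop) [Decidable p] : ind p ≤ 1 := by
  unfold ind
  split_ifs
  · exact le_rfl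
  · exact zero_le_one

theorem ind_pos {p : Prop} [Decidable p] (h : p) : ind p = 1 := if_pos h

theorem ind_neg {p : Prop} [Decidable p] (h : ¬ p) : ind p = 0 := if_neg h

theorem card_pairs (s : Finset ℕ) (h : s.card = 5) (r : ℕ → ℕ → Prop) [∀ x y, Decidable (r x y)] :
    ((s ×ˢ s).filter (fun t => t.1 < t.2 ∧ r t.1 t.2)).card =
      ∑ i : Fin 5, ∑ j : Fin 5, if i < j then ind (r (s.orderEmbOfFin h i) (s.orderEmbOfFin h j))
        else 0 := by
  rw [card_filter, sum_product]
  have hs : (univ : Finset (Fin 5)).map (s.orderEmbOfFin h).toEmbedding = s :=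
    Finset.map_orderEmbOfFin_univ s h
  have hsum : ∀ F : ℕ → ℕ, ∑ x ∈ s, F x = ∑ i : Fin 5, F (s.orderEmbOfFin h i) := by
    intro F
    conv_lhs => rw [← hs]
    rw [sum_map]
    rfl
  rw [hsum]
  refine sum_congr rfl fun i _ => ?_
  rw [hsum]
  refine sum_congr rfl fun j _ => ?_
  show (if s.orderEmbOfFin h i < s.orderEmbOfFin h j ∧ r (s.orderEmbOfFin h i) (s.orderEmbOfFin h j)
    then 1 else 0) = _
  have hlt : s.orderEmbOfFin h i < s.orderEmbOfFin h j ↔ i < j := OrderEmbedding.lt_iff_lt _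
  by_cases h1 : i < j
  · rw [if_pos h1]
    unfold ind
    by_cases h2 : r (s.orderEmbOfFin h i) (s.orderEmbOfFin h j)
    · rw [if_pos ⟨hlt.2 h1, h2⟩, if_pos h2]
    · rw [if_neg (fun h3 => h2 h3.2), if_neg h2]
  · rw [if_neg h1, if_neg (fun h3 => h1 (hlt.1 h3.1))]

theorem sum_pairs (f : Fin 5 → Fin 5 → ℕ) : (∑ i : Fin 5, ∑ j : Fin 5, if i < j then f i j else 0) =
    f 0 1 + f 0 2 + f 0 3 + f 0 4 + f 1 2 + f 1 3 + f 1 4 + f 2 3 + f 2 4 + f 3 4 := by
  simp [Fin.sum_univ_five]
  ring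

/-- a dropped pair -/
theorem drop {U V N q' q p m : ℕ} (hUV : U * V ≤ N) (hN : N = q' * q * p * m) (hq : q' < q)
    (hp : 0 < p) (hm : 0 < m) (hmU : m ≤ U) : V < q * q * p := by
  by_contra hc
  push Not at hc
  have hq0 : 0 < q := by omega
  have h1 : q' * q * p < q * q * p := by
    have h2 : q' * (q * p) < q * (q * p) := Nat.mul_lt_mul_of_pos_right hq (Nat.mul_pos hq0 hp)
    calc q' * q * p = q' * (q * p) := by ring
      _ < q * (q * p) := h2
      _ = q * q * p := by ring
  have h3 : q' * q * p < V := lt_of_lt_of_le h1 hc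
  have h4 : q' * q * p * m < V * m := Nat.mul_lt_mul_of_pos_right h3 hm
  have h5 : V * m ≤ V * U := Nat.mul_le_mul_left V hmU
  have h6 : V * U = U * V := Nat.mul_comm _ _
  omega

theorem core (U V N a b c d e : ℕ) (ha : 0 < a) (hab : a < b) (hbc : b < c) (hcd : c < d)
    (hde : d < e) (hN : N = a * b * c * d * e) (hUV : U * V ≤ N) :
    2 * (ind (a * b ≤ U) + ind (a * c ≤ U) + ind (a * d ≤ U) + ind (a * e ≤ U) +
      ind (b * c ≤ U) + ind (b * d ≤ U) + ind (b * e ≤ U) + ind (c * d ≤ U) + ind (c * e ≤ U) +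
      ind (d * e ≤ U)) ≤
    14 + (ind (a * b ≤ U ∧ V < a * a * b) + ind (a * c ≤ U ∧ V < a * a * c) +
      ind (a * d ≤ U ∧ V < a * a * d) + ind (a * e ≤ U ∧ V < a * a * e) +
      ind (b * c ≤ U ∧ V < b * b * c) + ind (b * d ≤ U ∧ V < b * b * d) +
      ind (b * e ≤ U ∧ V < b * b * e) + ind (c * d ≤ U ∧ V < c * c * d) +
      ind (c * e ≤ U ∧ V < c * c * e) + ind (d * e ≤ U ∧ V < d * d * e)) := by
  have hb : 0 < b := by omega
  have hc : 0 < c := by omega
  have hd : 0 < d := by omega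
  have he : 0 < e := by omega
  have p1 := ind_le (a * b ≤ U)
  have p2 := ind_le (a * c ≤ U)
  have p3 := ind_le (a * d ≤ U)
  have p4 := ind_le (a * e ≤ U)
  have p5 := ind_le (b * c ≤ U)
  have p6 := ind_le (b * d ≤ U)
  have p7 := ind_le (b * e ≤ U)
  have p8 := ind_le (c * d ≤ U)
  have p9 := ind_le (c * e ≤ U)
  have p10 := ind_le (d * e ≤ U)
  -- monotonicity
  have m1 : c * e ≤ d * e := Nat.mul_le_mul_right e hcd.le
  have m2 : b * e ≤ c * e := Nat.mul_le_mul_right e hbc.le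
  have m3 : a * e ≤ b * e := Nat.mul_le_mul_right e hab.le
  have m4 : c * d ≤ c * e := Nat.mul_le_mul_left c hde.le
  have m5 : b * d ≤ c * d := Nat.mul_le_mul_right d hbc.le
  have m6 : a * d ≤ b * d := Nat.mul_le_mul_right d hab.le
  have m7 : b * c ≤ b * d := Nat.mul_le_mul_left b hcd.le
  have m8 : a * b ≤ a * d := Nat.mul_le_mul_left a (by omega)
  -- dropped pairs
  have dbc : d * e ≤ U → b * c ≤ U → ind (b * c ≤ U ∧ V < b * b * c) = 1 := fun h1 h2 =>
    ind_pos ⟨h2, drop hUV (by rw [hN]; ring : N = a * b * c * (d * e)) hab hc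
      (Nat.mul_pos hd he) h1⟩
  have dbd : c * e ≤ U → b * d ≤ U → ind (b * d ≤ U ∧ V < b * b * d) = 1 := fun h1 h2 =>
    ind_pos ⟨h2, drop hUV (by rw [hN]; ring : N = a * b * d * (c * e)) hab hd
      (Nat.mul_pos hc he) h1⟩
  have dbe : c * d ≤ U → b * e ≤ U → ind (b * e ≤ U ∧ V < b * b * e) = 1 := fun h1 h2 =>
    ind_pos ⟨h2, drop hUV (by rw [hN]; ring : N = a * b * e * (c * d)) hab he
      (Nat.mul_pos hc hd) h1⟩
  have dcd : a * e ≤ U → c * d ≤ U → ind (c * d ≤ U ∧ V < c * c * d) = 1 := fun h1 h2 =>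
    ind_pos ⟨h2, drop hUV (by rw [hN]; ring : N = b * c * d * (a * e)) hbc hd
      (Nat.mul_pos ha he) h1⟩
  have dce : a * d ≤ U → c * e ≤ U → ind (c * e ≤ U ∧ V < c * c * e) = 1 := fun h1 h2 =>
    ind_pos ⟨h2, drop hUV (by rw [hN]; ring : N = b * c * e * (a * d)) hbc he
      (Nat.mul_pos ha hd) h1⟩
  have dde : a * b ≤ U → d * e ≤ U → ind (d * e ≤ U ∧ V < d * d * e) = 1 := fun h1 h2 =>
    ind_pos ⟨h2, drop hUV (by rw [hN]; ring : N = c * d * e * (a * b)) hcd he
      (Nat.mul_pos ha hb) h1⟩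
  by_cases h1 : d * e ≤ U
  · have q1 := dbc h1 (by omega)
    have q2 := dbd (by omega) (by omega)
    have q3 := dbe (by omega) (by omega)
    have q4 := dcd (by omega) (by omega)
    have q5 := dce (by omega) (by omega)
    have q6 := dde (by omega) h1
    omega
  · have r1 := ind_neg h1
    by_cases h2 : c * e ≤ U
    · have q2 := dbd h2 (by omega)
      have q3 := dbe (by omega) (by omega)
      have q4 := dcd (by omega) (by omega)
      have q5 := dce (by omega) h2
      omega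
    · have r2 := ind_neg h2
      by_cases h3 : c * d ≤ U
      · by_cases h4 : b * e ≤ U
        · have q3 := dbe h3 h4
          have q4 := dcd (by omega) h3
          omega
        · have r4 := ind_neg h4
          omega
      · have r3 := ind_neg h3
        omega

theorem t_A5 : S_A5 := by
  intro U V N hsq hw hUV
  have hcard : N.primeFactors.card = 5 := hw
  set p := N.primeFactors.orderEmbOfFin hcard with hp
  have hmem : ∀ i, p i ∈ N.primeFactors := fun i => Finset.orderEmbOfFin_mem _ _ i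
  have hpos : ∀ i, 0 < p i := fun i => (Nat.prime_of_mem_primeFactors (hmem i)).pos
  have hlt : ∀ i j : Fin 5, i < j → p i < p j := fun i j h => p.lt_iff_lt.2 h
  have hN : N = p 0 * p 1 * p 2 * p 3 * p 4 := by
    have h1 := Nat.prod_primeFactors_of_squarefree hsq
    have h2 : (univ : Finset (Fin 5)).map p.toEmbedding = N.primeFactors :=
      Finset.map_orderEmbOfFin_univ _ hcard
    rw [← h2, prod_map, Fin.prod_univ_five] at h1
    exact h1.symm
  have hP : Pn U N = ∑ i : Fin 5, ∑ j : Fin 5, if i < j then ind (p i * p j ≤ U) else 0 :=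
    card_pairs N.primeFactors hcard (fun x y => x * y ≤ U)
  have hD : Dn U V N = ∑ i : Fin 5, ∑ j : Fin 5,
      if i < j then ind (p i * p j ≤ U ∧ V < p i * p i * p j) else 0 := by
    rw [← card_pairs N.primeFactors hcard (fun x y => x * y ≤ U ∧ V < x * x * y)]
    unfold Dn dr
    congr 1
  rw [hP, hD, sum_pairs, sum_pairs]
  exact core U V N (p 0) (p 1) (p 2) (p 3) (p 4) (hpos 0) (hlt 0 1 (by decide))
    (hlt 1 2 (by decide)) (hlt 2 3 (by decide)) (hlt 3 4 (by decide)) hN hUV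

end Pool.Agent.H294.LB
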